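import Mathlib

set_option autoImplicit false

namespace Pool.Agent.Results.MP_851083_pr.Attractor

/-- the local rule `F(a,b,c,d) = max (min a b) (min c d)` on `{0,1}` -/
def F (a b c d : Fin 2) : Fin 2 := max (min a b) (min c d)

/-- one step of the flattening automaton -/
def step (x : ℤ × ℤ → Fin 2) : ℤ × ℤ → Fin 2 := fun p =>
  F (x (p.1, p.2)) (x (p.1, p.2 - 1)) (x (p.1 - 1, p.2)) (x (p.1 - 1, p.2 - 1))

/-- the trajectory: `TR s t` is the configuration at time `t - 1`, so `TR s 0 = s` -/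
def TR (s : ℤ × ℤ → Fin 2) (t : ℕ) : ℤ × ℤ → Fin 2 := step^[t] s

/-- every finite perturbation of `s` changes the trajectory at finitely many space-time points -/
def IsAttractor (s : ℤ × ℤ → Fin 2) : Prop :=
  ∀ s' : ℤ × ℤ → Fin 2, {p | s' p ≠ s p}.Finite →
    {q : (ℤ × ℤ) × ℕ | TR s' q.2 q.1 ≠ TR s q.2 q.1}.Finite

lemma TR_succ (s : ℤ × ℤ → Fin 2) (t : ℕ) (i j : ℤ) : TR s (t + 1) (i, j) =
    F (TR s t (i, j)) (TR s t (i, j - 1)) (TR s t (i - 1, j)) (TR s t (i - 1, j - 1)) := by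
  rw [TR, Function.iterate_succ_apply']
  rfl

lemma empty_row (s : ℤ × ℤ → Fin 2) (j : ℤ) (h : ∀ i, s (i, j) = 0) (t : ℕ) :
    ∀ i k, j ≤ k → k ≤ j + t → TR s t (i, k) = 0 := by
  induction t with
  | zero =>
    intro i k h1 h2
    obtain rfl : k = j := by omega
    exact h i
  | succ t ih =>
    intro i k h1 h2
    rw [TR_succ]
    by_cases hk : k = j
    · rw [ih i k h1 (by omega), ih (i - 1) k h1 (by omega)]
      simp [F]
    · rw [ih i (k - 1) (by omega) (by omega), ih (i - 1) (k - 1) (by omega) (by omega)]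
      simp [F]

lemma full_row (s : ℤ × ℤ → Fin 2) (t : ℕ) :
    ∀ j : ℤ, (∀ i k, j - t ≤ k → k ≤ j → s (i, k) = 1) → ∀ i, TR s t (i, j) = 1 := by
  induction t with
  | zero => exact fun j h i => h i j (by omega) le_rfl
  | succ t ih =>
    intro j h i
    have h1 := ih j fun i k h1 h2 => h i k (by omega) h2
    have h2 := ih (j - 1) fun i k h1 h2 => h i k (by omega) (by omega)
    rw [TR_succ, h1, h1, h2, h2]
    rfl

open Classical in
/-- rows whose index has square absolute value are empty, the others are full -/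
noncomputable def s0 (p : ℤ × ℤ) : Fin 2 := if ∃ k : ℕ, k * k = p.2.natAbs then 0 else 1

lemma attr : IsAttractor s0 := by
  intro s hs
  obtain ⟨K, hK⟩ : ∃ K : ℕ, ∀ i j : ℤ, (K < i.natAbs ∨ K < j.natAbs) → s (i, j) = s0 (i, j) := by
    obtain ⟨K, hK⟩ := (hs.image fun p => p.1.natAbs + p.2.natAbs).bddAbove
    refine ⟨K, fun i j h => ?_⟩
    by_contra h2
    have := hK ⟨(i, j), h2, rfl⟩
    simp only at this
    omega
  obtain ⟨M, hM, hM0⟩ : ∃ M : ℕ, K < M ∧ ∃ k : ℕ, k * k = M := ⟨(K + 1) * (K + 1), by nlinarith, _, rfl⟩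
  have e1 : ∀ i, s0 (i, M) = 0 := fun i => by simp [s0, hM0]
  have e2 : ∀ i, s0 (i, -M) = 0 := fun i => by simp [s0, hM0]
  have e3 : ∀ i, s (i, M) = 0 := fun i => by rw [hK _ _ (by omega), e1]
  have e4 : ∀ i, s (i, -M) = 0 := fun i => by rw [hK _ _ (by omega), e2]
  have inv : ∀ (t : ℕ) (i j : ℤ), (j < -M ∨ M ≤ j ∨ i < -K ∨ K + t < i) → TR s t (i, j) = TR s0 t (i, j) := by
    intro t
    induction t with
    | zero => exact fun i j h => hK i j (by omega)
    | succ t ih =>
      intro i j h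
      by_cases hj : j = M
      · rw [empty_row s M e3 _ i j (by omega) (by omega), empty_row s0 M e1 _ i j (by omega) (by omega)]
      · rw [TR_succ, TR_succ, ih i j (by omega), ih i (j - 1) (by omega), ih (i - 1) j (by omega),
          ih (i - 1) (j - 1) (by omega)]
  refine (((Set.finite_Icc (-K : ℤ) (K + 2 * M)).prod (Set.finite_Icc (-M : ℤ) M)).prod
    (Set.finite_Iic (2 * M))).subset ?_
  rintro ⟨⟨i, j⟩, t⟩ h
  have h1 := mt (inv t i j) h
  have h2 : ¬ j ≤ -M + t := fun h2 => h (by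
    rw [empty_row s _ e4 t i j (by omega) h2, empty_row s0 _ e2 t i j (by omega) h2])
  simp only [Set.mem_prod, Set.mem_Icc, Set.mem_Iic]
  omega

theorem result : ∃ s : ℤ × ℤ → Fin 2, IsAttractor s ∧
    ∀ t : ℕ, {p | TR s t p = 0}.Infinite ∧ {p | TR s t p = 1}.Infinite := by
  refine ⟨s0, attr, fun t => ⟨?_, ?_⟩⟩
  · refine Set.infinite_of_injective_forall_mem (f := fun i : ℤ => (i, (0 : ℤ)))
      (fun a b h => (Prod.ext_iff.1 h).1) fun i => ?_
    exact empty_row s0 0 (fun i => by simp [s0]) t i 0 le_rfl (by omega)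
  · refine Set.infinite_of_injective_forall_mem
      (f := fun i : ℤ => (i, (((t + 1) * (t + 1) + 1 + t : ℕ) : ℤ)))
      (fun a b h => (Prod.ext_iff.1 h).1) fun i => ?_
    refine full_row s0 t _ (fun i k h1 h2 => ?_) i
    rw [s0, if_neg]
    have : (t + 1 + 1) * (t + 1 + 1) = (t + 1) * (t + 1) + 2 * t + 3 := by ring
    generalize hu : (t + 1) * (t + 1) = u at h1 h2 this
    exact Nat.not_exists_sq (m := t + 1) (by omega) (by omega)

end Pool.Agent.Results.MP_851083_pr.Attractor
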